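import Pool.Agent.Helper17.CR.Stmts2
import Pool.Agent.Helper33.CR.MOD

set_option autoImplicit false

/-! # The module `P / Phi(P)` -/

namespace Pool.Agent.Helper46.CR

open Pool.Agent.Helper17.CR

universe u

theorem st_MOD2 (h2 : ST_FRAT.{u}) (h3 : ST_FIXQ.{u}) : ST_MOD2.{u} := by
  intro G _ _ p hpf F hF hFp
  have hp : p.Prime := hpf.out
  obtain ⟨Ph, hPh, hle, hPp, hPc, hPg⟩ := h2 G p F hp hF hFp
  have hPhp : IsPGroup p Ph := hFp.to_le hle
  obtain ⟨V, _, _, _, ρ, π, hsurj, hπ, hρ⟩ := Helper33.CR.mod_mk G p F Ph hF hPh hPp hPc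
  have hfix : ∀ g : G, (orderOf g).Prime → orderOf g ≠ p → ∀ x : F, ρ g (π x) = π x →
      ∃ n ∈ Ph, g * ((x : G) * n) * g⁻¹ = (x : G) * n := by
    intro g hg hgp x hx
    rw [hρ] at hx
    have h4 := (hπ _ _).1 hx.symm
    exact h3 G p Ph hp hPh hPhp g x hg hgp h4
  refine ⟨V, inferInstance, inferInstance, inferInstance, ρ,
    Nat.card_le_card_of_surjective π hsurj, ?_⟩
  intro x hxp hxne hxK
  have hU : F ≤ (F ⊓ Subgroup.centralizer {x}) ⊔ Ph := by
    intro y hy
    obtain ⟨n, hn, hn2⟩ := hfix x hxp hxne ⟨y, hy⟩ (by rw [hxK]; rfl)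
    have h5 : y * n ∈ F ⊓ Subgroup.centralizer {x} := by
      refine ⟨F.mul_mem hy (hle hn), ?_⟩
      show y * n ∈ Subgroup.centralizer {x}
      rw [Subgroup.mem_centralizer_singleton_iff]
      have h6 : x * (y * n) * x⁻¹ = y * n := hn2
      have h7 := mul_inv_eq_iff_eq_mul.1 h6
      exact h7.symm
    have h6 : y = (y * n) * n⁻¹ := by group
    rw [h6]
    exact Subgroup.mul_mem_sup h5 (Ph.inv_mem hn)
  have hUF := hPg _ inf_le_left hU
  have hFc : F ≤ Subgroup.centralizer {x} := by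
    rw [← hUF]
    exact inf_le_right
  intro y hy
  have h8 := hFc hy
  rw [Subgroup.mem_centralizer_singleton_iff] at h8
  exact h8.symm

end Pool.Agent.Helper46.CR
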